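import Pool.Agent.Lib.MP_31c440_gt.H23.Invariance

/-! # The symmetric bikei on `M × M` and Fox colourings -/

namespace Pool.Agent.Lib.MP_31c440_gt.H23

variable (M : Type*) [AddCommGroup M]

/-- The symmetric rule on `M × M`: with `i (u, v) = (-v, u)` and `J (u, v) = (u, -v)` it is
`left x y = ((1 + i) x + J y, J x + (1 + i) y)`, `right` is the inverse and `rev = i J`. -/
def bikei : Rule (M × M) where
  rev x := (x.2, x.1)
  left x y := ((x.1 - x.2 + y.1, x.1 + x.2 - y.2), (x.1 + y.1 - y.2, -x.2 + y.1 + y.2))
  right a b := ((a.1 + a.2 - b.1, a.2 - a.1 + b.2), (b.1 + b.2 - a.1, b.2 - b.1 + a.2))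

theorem bikei_symmetric : (bikei M).Symmetric where
  rev_rev x := rfl
  two c x y := by
    cases c <;> simp only [Kind.flip, Rule.cross, bikei] <;>
      (refine Prod.ext (Prod.ext ?_ ?_) (Prod.ext ?_ ?_)) <;> simp only <;> abel
  kink c x := by
    cases c <;> simp only [Rule.cross, bikei] <;>
      (refine Prod.ext ?_ ?_) <;> simp only <;> abel
  three c x y z := by
    cases c <;> simp only [Rule.cross, bikei] <;>
      (refine Prod.ext (Prod.ext ?_ ?_) (Prod.ext (Prod.ext ?_ ?_) (Prod.ext ?_ ?_))) <;>
      simp only <;> abel
  turn c a b := by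
    cases c <;> simp only [Kind.flip, Rule.cross, bikei] <;>
      (refine Prod.ext (Prod.ext ?_ ?_) (Prod.ext ?_ ?_)) <;> simp only <;> abel
  virtualisation c x y := by
    cases c <;> simp only [Rule.cross, bikei, Prod.swap] <;>
      (refine Prod.ext (Prod.ext ?_ ?_) (Prod.ext ?_ ?_)) <;> simp only <;> abel
  inj c x y z h := by
    cases c <;> simp only [Rule.cross, bikei, Prod.mk.injEq] at h
    all_goals try exact h
    · obtain ⟨h1, h2⟩ := h
      exact Prod.ext (by simpa using h1) (by simpa using h2)
    · obtain ⟨h1, h2⟩ := h
      exact Prod.ext (by simpa using h1) (by simpa using h2)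

variable {M}

/-- `J ^ c` on `M × M`. -/
def jpow : Bool → M × M → M × M
  | false, x => x
  | true, x => (x.1, -x.2)

/-- `(1 + i)` on `M × M`. -/
def onePlusI (x : M × M) : M × M := (x.1 - x.2, x.1 + x.2)

/-- The gauge transformation from labels of the symmetric rule to Fox labels. -/
def gauge : Bool → M × M → List (M × M) → List (M × M)
  | _, _, [] => []
  | c, p, x :: l => (jpow c x + p) :: gauge (!c) (p + jpow c (onePlusI x)) l

theorem jpow_not (c : Bool) (x : M × M) : jpow (!c) x = jpow c (x.1, -x.2) := by
  cases c <;> simp [jpow]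

theorem gauge_cup (c : Bool) (p x : M × M) (l : List (M × M)) :
    gauge c p (x :: (bikei M).rev x :: l) = (jpow c x + p) :: (jpow c x + p) :: gauge c p l := by
  have h1 : jpow (!c) ((bikei M).rev x) + (p + jpow c (onePlusI x)) = jpow c x + p := by
    cases c <;> simp only [jpow, bikei, onePlusI, Bool.not_false, Bool.not_true] <;>
      (refine Prod.ext ?_ ?_) <;> simp only [Prod.fst_add, Prod.snd_add] <;> abel
  have h2 : p + jpow c (onePlusI x) + jpow (!c) (onePlusI ((bikei M).rev x)) = p := by
    cases c <;> simp only [jpow, bikei, onePlusI, Bool.not_false, Bool.not_true] <;>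
      (refine Prod.ext ?_ ?_) <;> simp only [Prod.fst_add, Prod.snd_add] <;> abel
  simp only [gauge, h1, h2, Bool.not_not]

theorem gauge_cap_iff (c : Bool) (p x y : M × M) :
    jpow (!c) y + (p + jpow c (onePlusI x)) = jpow c x + p ↔ y = (bikei M).rev x := by
  constructor
  · intro h
    have h1 := congrArg Prod.fst h
    have h2 := congrArg Prod.snd h
    cases c
    · simp only [jpow, onePlusI, Bool.not_false, Prod.fst_add, Prod.snd_add] at h1 h2
      refine Prod.ext ?_ ?_
      · simp only [bikei]
        have : y.1 = (y.1 + (p.1 + (x.1 - x.2))) - p.1 - x.1 + x.2 := by abel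
        rw [this, h1]; abel
      · simp only [bikei]
        have : y.2 = -((-y.2 + (p.2 + (x.1 + x.2))) - p.2 - x.1 - x.2) := by abel
        rw [this, h2]; abel
    · simp only [jpow, onePlusI, Bool.not_true, Prod.fst_add, Prod.snd_add] at h1 h2
      refine Prod.ext ?_ ?_
      · simp only [bikei]
        have : y.1 = (y.1 + (p.1 + (x.1 - x.2))) - p.1 - x.1 + x.2 := by abel
        rw [this, h1]; abel
      · simp only [bikei]
        have : y.2 = (y.2 + (p.2 + -(x.1 + x.2))) - p.2 + x.1 + x.2 := by abel
        rw [this, h2]; abel
  · rintro rfl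
    cases c <;> simp only [jpow, bikei, onePlusI, Bool.not_false, Bool.not_true] <;>
      (refine Prod.ext ?_ ?_) <;> simp only [Prod.fst_add, Prod.snd_add] <;> abel

theorem gauge_left (c : Bool) (p x y : M × M) (l : List (M × M)) :
    gauge c p (((bikei M).left x y).1 :: ((bikei M).left x y).2 :: l) =
      (jpow (!c) y + (p + jpow c (onePlusI x))) ::
      (2 • (jpow (!c) y + (p + jpow c (onePlusI x))) - (jpow c x + p)) ::
      gauge c (p + jpow c (onePlusI x) + jpow (!c) (onePlusI y)) l := by
  have h1 : jpow c ((bikei M).left x y).1 + p = jpow (!c) y + (p + jpow c (onePlusI x)) := by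
    cases c <;> simp only [jpow, bikei, onePlusI, Bool.not_false, Bool.not_true] <;>
      (refine Prod.ext ?_ ?_) <;> simp only [Prod.fst_add, Prod.snd_add] <;> abel
  have h2 : jpow (!c) ((bikei M).left x y).2 + (p + jpow c (onePlusI ((bikei M).left x y).1)) =
      2 • (jpow (!c) y + (p + jpow c (onePlusI x))) - (jpow c x + p) := by
    cases c <;> simp only [jpow, bikei, onePlusI, Bool.not_false, Bool.not_true] <;>
      (refine Prod.ext ?_ ?_) <;>
      simp only [Prod.fst_add, Prod.snd_add, Prod.fst_sub, Prod.snd_sub, Prod.smul_fst,
        Prod.smul_snd] <;> abel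
  have h3 : p + jpow c (onePlusI ((bikei M).left x y).1) +
      jpow (!c) (onePlusI ((bikei M).left x y).2) =
      p + jpow c (onePlusI x) + jpow (!c) (onePlusI y) := by
    cases c <;> simp only [jpow, bikei, onePlusI, Bool.not_false, Bool.not_true] <;>
      (refine Prod.ext ?_ ?_) <;> simp only [Prod.fst_add, Prod.snd_add] <;> abel
  simp only [gauge, Bool.not_not]
  rw [h1, h2, h3]

theorem gauge_right (c : Bool) (p x y : M × M) (l : List (M × M)) :
    gauge c p (((bikei M).right x y).1 :: ((bikei M).right x y).2 :: l) =
      (2 • (jpow c x + p) - (jpow (!c) y + (p + jpow c (onePlusI x)))) ::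
      (jpow c x + p) ::
      gauge c (p + jpow c (onePlusI x) + jpow (!c) (onePlusI y)) l := by
  have h1 : jpow c ((bikei M).right x y).1 + p =
      2 • (jpow c x + p) - (jpow (!c) y + (p + jpow c (onePlusI x))) := by
    cases c <;> simp only [jpow, bikei, onePlusI, Bool.not_false, Bool.not_true] <;>
      (refine Prod.ext ?_ ?_) <;>
      simp only [Prod.fst_add, Prod.snd_add, Prod.fst_sub, Prod.snd_sub, Prod.smul_fst,
        Prod.smul_snd] <;> abel
  have h2 : jpow (!c) ((bikei M).right x y).2 + (p + jpow c (onePlusI ((bikei M).right x y).1)) =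
      jpow c x + p := by
    cases c <;> simp only [jpow, bikei, onePlusI, Bool.not_false, Bool.not_true] <;>
      (refine Prod.ext ?_ ?_) <;> simp only [Prod.fst_add, Prod.snd_add] <;> abel
  have h3 : p + jpow c (onePlusI ((bikei M).right x y).1) +
      jpow (!c) (onePlusI ((bikei M).right x y).2) =
      p + jpow c (onePlusI x) + jpow (!c) (onePlusI y) := by
    cases c <;> simp only [jpow, bikei, onePlusI, Bool.not_false, Bool.not_true] <;>
      (refine Prod.ext ?_ ?_) <;> simp only [Prod.fst_add, Prod.snd_add] <;> abel
  simp only [gauge, Bool.not_not]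
  rw [h1, h2, h3]

section
variable [Fintype M] [DecidableEq M]

/-- The gauge transformation intertwines the operators of the two rules, for a piece which is not a
virtual crossing. -/
theorem opk_gauge (k : Kind) (hk : k ≠ .virt) : ∀ (j : ℕ) (f : List (M × M) → ℕ) (c : Bool)
    (p : M × M) (a : List (M × M)),
    (bikei M).opk k j (fun b => f (gauge c p b)) a = (foxRule (M × M)).opk k j f (gauge c p a)
  | 0, f, c, p, a => by
    cases k with
    | virt => exact absurd rfl hk
    | cup =>
      simp only [Rule.opk, Rule.op0_cup, gauge_cup]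
      have hbij : Function.Bijective (fun x : M × M => jpow c x + p) := by
        apply Finite.injective_iff_bijective.1
        intro x y h
        have h1 := congrArg Prod.fst h
        have h2 := congrArg Prod.snd h
        cases c <;> simp only [jpow, Prod.fst_add, Prod.snd_add, add_left_inj, neg_inj] at h1 h2 <;>
          exact Prod.ext h1 h2
      exact Function.Bijective.sum_comp hbij (fun z => f (z :: z :: gauge c p a))
    | cap =>
      match a with
      | [] => rfl
      | [x] => rfl
      | x :: y :: l =>
        have h2 : ∀ x : M × M, p + jpow c (onePlusI x) +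
            jpow (!c) (onePlusI ((bikei M).rev x)) = p := by
          intro x
          cases c <;> simp only [jpow, bikei, onePlusI, Bool.not_false, Bool.not_true] <;>
            (refine Prod.ext ?_ ?_) <;> simp only [Prod.fst_add, Prod.snd_add] <;> abel
        simp only [Rule.opk, Rule.op0_cap, gauge, Bool.not_not]
        by_cases h : y = (bikei M).rev x
        · rw [if_pos h, if_pos]
          · rw [h, h2]
          · exact (gauge_cap_iff c p x y).2 h
        · rw [if_neg h, if_neg]
          exact fun h' => h ((gauge_cap_iff c p x y).1 h')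
    | left =>
      match a with
      | [] => rfl
      | [x] => rfl
      | x :: y :: l =>
        simp only [Rule.opk, Rule.op0_left, gauge_left]
        simp only [gauge, Rule.op0_left, foxRule, Bool.not_not]
    | right =>
      match a with
      | [] => rfl
      | [x] => rfl
      | x :: y :: l =>
        simp only [Rule.opk, Rule.op0_right, gauge_right]
        simp only [gauge, Rule.op0_right, foxRule, Bool.not_not]
  | j + 1, f, c, p, [] => rfl
  | j + 1, f, c, p, x :: a => by
    simp only [Rule.opk, gauge]
    exact opk_gauge k hk j (fun b => f ((jpow c x + p) :: b)) (!c) (p + jpow c (onePlusI x)) a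

theorem op_gauge (w : List Piece) (hw : ∀ q ∈ w, q.kind ≠ Kind.virt) (f : List (M × M) → ℕ) :
    ∀ a : List (M × M), (bikei M).op w (fun b => f (gauge false 0 b)) a =
      (foxRule (M × M)).op w f (gauge false 0 a) := by
  induction w with
  | nil => intro a; rfl
  | cons q w ih =>
    intro a
    simp only [Rule.op]
    have h1 : (bikei M).op w (fun b => f (gauge false 0 b)) =
        fun a => (foxRule (M × M)).op w f (gauge false 0 a) :=
      funext (ih fun r hr => hw r (List.mem_cons_of_mem _ hr))
    rw [h1]
    exact opk_gauge q.kind (hw q List.mem_cons_self) q.pos _ false 0 a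

/-- On a classical diagram, the symmetric rule counts pairs of Fox colourings. -/
theorem bikei_count (D : Diagram) (hD : D.Classical) :
    (bikei M).count D = (foxRule (M × M)).count D := by
  have h := op_gauge (M := M) D.word hD (fun c => if c = [] then 1 else 0) []
  have h1 : (fun b : List (M × M) => if gauge false 0 b = [] then 1 else 0) =
      (fun b : List (M × M) => if b = [] then 1 else 0) := by
    funext b
    cases b with
    | nil => rfl
    | cons x b => simp [gauge]
  rw [h1] at h
  rw [Rule.count_eq, Rule.count_eq]
  exact h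

/-- Fox colourings in a product. -/
theorem fox_opk_prod (k : Kind) : ∀ (j : ℕ) (f g : List M → ℕ) (a : List (M × M)),
    (foxRule (M × M)).opk k j (fun b => f (b.map Prod.fst) * g (b.map Prod.snd)) a =
      (foxRule M).opk k j f (a.map Prod.fst) * (foxRule M).opk k j g (a.map Prod.snd)
  | 0, f, g, a => by
    cases k with
    | cup =>
      simp only [Rule.opk, Rule.op0_cup, foxRule, List.map_cons, Fintype.sum_prod_type]
      rw [Finset.sum_mul_sum]
    | cap =>
      match a with
      | [] => simp [Rule.opk, Rule.op0]
      | [x] => simp [Rule.opk, Rule.op0]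
      | x :: y :: l =>
        simp only [Rule.opk, Rule.op0_cap, foxRule, List.map_cons, Prod.ext_iff]
        by_cases h1 : y.1 = x.1 <;> by_cases h2 : y.2 = x.2 <;> simp [h1, h2]
    | left =>
      match a with
      | [] => simp [Rule.opk, Rule.op0]
      | [x] => simp [Rule.opk, Rule.op0]
      | x :: y :: l =>
        simp only [Rule.opk, Rule.op0_left, foxRule, List.map_cons, Prod.fst_sub, Prod.snd_sub,
          Prod.smul_fst, Prod.smul_snd]
    | right =>
      match a with
      | [] => simp [Rule.opk, Rule.op0]
      | [x] => simp [Rule.opk, Rule.op0]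
      | x :: y :: l =>
        simp only [Rule.opk, Rule.op0_right, foxRule, List.map_cons, Prod.fst_sub, Prod.snd_sub,
          Prod.smul_fst, Prod.smul_snd]
    | virt =>
      match a with
      | [] => simp [Rule.opk, Rule.op0]
      | [x] => simp [Rule.opk, Rule.op0]
      | x :: y :: l => simp only [Rule.opk, Rule.op0_virt, List.map_cons]
  | j + 1, f, g, [] => by simp [Rule.opk]
  | j + 1, f, g, x :: a => by
    simp only [Rule.opk, List.map_cons]
    exact fox_opk_prod k j (fun b => f (x.1 :: b)) (fun b => g (x.2 :: b)) a

theorem fox_op_prod (w : List Piece) : ∀ (f g : List M → ℕ) (a : List (M × M)),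
    (foxRule (M × M)).op w (fun b => f (b.map Prod.fst) * g (b.map Prod.snd)) a =
      (foxRule M).op w f (a.map Prod.fst) * (foxRule M).op w g (a.map Prod.snd) := by
  induction w with
  | nil => intro f g a; rfl
  | cons q w ih =>
    intro f g a
    simp only [Rule.op]
    have h1 : (foxRule (M × M)).op w (fun b => f (b.map Prod.fst) * g (b.map Prod.snd)) =
        fun a => (foxRule M).op w f (a.map Prod.fst) * (foxRule M).op w g (a.map Prod.snd) :=
      funext (ih f g)
    rw [h1]
    exact fox_opk_prod q.kind q.pos _ _ a

theorem fox_count_prod (D : Diagram) :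
    (foxRule (M × M)).count D = (foxRule M).count D ^ 2 := by
  rw [Rule.count_eq, Rule.count_eq, sq]
  have := fox_op_prod D.word (fun c : List M => if c = [] then 1 else 0)
    (fun c : List M => if c = [] then 1 else 0) []
  simp only [List.map_nil] at this
  rw [← this]
  congr 1
  funext b
  cases b <;> simp

end

/-- The number of Fox colourings of classical diagrams is an invariant of virtualisation. -/
theorem foxColourings_eq {D D' : Diagram} (hD : D.Classical) (hD' : D'.Classical)
    (h : D.Related D') (M : Type*) [AddCommGroup M] [Finite M] :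
    D.foxColourings M = D'.foxColourings M := by
  classical
  haveI := Fintype.ofFinite M
  have h1 := (bikei_symmetric M).count_related h
  rw [bikei_count D hD, bikei_count D' hD', fox_count_prod, fox_count_prod] at h1
  exact (Nat.pow_left_injective (n := 2) (by norm_num)) h1

end Pool.Agent.Lib.MP_31c440_gt.H23
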