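import Mathlib

/-!
# Virtual link diagrams as height-generic words, moves and colourings

An unoriented virtual link diagram in general position with respect to the height function is read
from bottom to top as a list of elementary pieces: births (`cup`) and deaths (`cap`) of two
neighbouring strands, classical crossings (`left`, `right`) and virtual crossings (`virt`).
-/

namespace Pool.Agent.Lib.MP_31c440_gt.H23

/-- The kinds of elementary pieces of a diagram.
* `cup`: a local minimum, two new neighbouring strands are born;
* `cap`: a local maximum, two neighbouring strands are joined;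
* `left`: a classical crossing of two neighbouring strands whose over-strand goes up to the left;
* `right`: a classical crossing of two neighbouring strands whose over-strand goes up to the right;
* `virt`: a virtual crossing of two neighbouring strands. -/
inductive Kind
  | cup | cap | left | right | virt
  deriving DecidableEq

/-- Number of strands entering a piece from below. -/
def Kind.inn : Kind → ℕ
  | .cup => 0
  | _ => 2

/-- Number of strands leaving a piece above. -/
def Kind.out : Kind → ℕ
  | .cap => 0
  | _ => 2

/-- The crossings among the pieces. -/
def Kind.IsCrossing : Kind → Prop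
  | .left | .right | .virt => True
  | _ => False

/-- Exchange the two classical crossings (the virtual crossing is kept). -/
def Kind.flip : Kind → Kind
  | .left => .right
  | .right => .left
  | c => c

/-- A piece in a horizontal slice: its kind and the number of vertical strands to its left. -/
structure Piece where
  /-- the kind of the piece -/
  kind : Kind
  /-- the number of strands to the left of the piece -/
  pos : ℕ

/-- Add one vertical strand on the left. -/
def Piece.succ (p : Piece) : Piece := ⟨p.kind, p.pos + 1⟩

/-- The piece `p` can be stacked on `m` strands and is left by `n` strands. -/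
def Piece.Fits (p : Piece) (m n : ℕ) : Prop :=
  p.pos + p.kind.inn ≤ m ∧ n + p.kind.inn = m + p.kind.out

/-- The word `w` (read from bottom to top) is a tangle diagram from `m` strands to `n` strands. -/
def Valid : List Piece → ℕ → ℕ → Prop
  | [], m, n => m = n
  | p :: w, m, n => ∃ l, p.Fits m l ∧ Valid w l n

/-- Local moves.  Planar isotopy: `far`, `zig`, `zag`, `turnCap`, `turnCup`.  The first
Reidemeister moves: `kinkCap`, `kinkCup`; the second: `two`; the third: `three` (each for the
classical crossings and for virtual crossings); the mixed third move: `mixed`; virtualisation: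
`virtualisation`.  `addStrand` allows every move at every horizontal position. -/
inductive Local : List Piece → List Piece → Prop
  | far (a b : Kind) (d : ℕ) : Local [⟨a, 0⟩, ⟨b, a.out + d⟩] [⟨b, a.inn + d⟩, ⟨a, 0⟩]
  | zig : Local [⟨.cup, 1⟩, ⟨.cap, 0⟩] []
  | zag : Local [⟨.cup, 0⟩, ⟨.cap, 1⟩] []
  | turnCap (c : Kind) (hc : c.IsCrossing) :
      Local [⟨c, 1⟩, ⟨.cap, 0⟩] [⟨c.flip, 0⟩, ⟨.cap, 1⟩]
  | turnCup (c : Kind) (hc : c.IsCrossing) :
      Local [⟨.cup, 0⟩, ⟨c, 1⟩] [⟨.cup, 1⟩, ⟨c.flip, 0⟩]
  | kinkCap (c : Kind) (hc : c.IsCrossing) : Local [⟨c, 0⟩, ⟨.cap, 0⟩] [⟨.cap, 0⟩]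
  | kinkCup (c : Kind) (hc : c.IsCrossing) : Local [⟨.cup, 0⟩, ⟨c, 0⟩] [⟨.cup, 0⟩]
  | two (c : Kind) (hc : c.IsCrossing) : Local [⟨c, 0⟩, ⟨c.flip, 0⟩] []
  | three (c : Kind) (hc : c.IsCrossing) :
      Local [⟨c, 0⟩, ⟨c, 1⟩, ⟨c, 0⟩] [⟨c, 1⟩, ⟨c, 0⟩, ⟨c, 1⟩]
  | mixed (c : Kind) (hc : c.IsCrossing) :
      Local [⟨.virt, 0⟩, ⟨.virt, 1⟩, ⟨c, 0⟩] [⟨c, 1⟩, ⟨.virt, 0⟩, ⟨.virt, 1⟩]
  | virtualisation (c : Kind) (hc : c.IsCrossing) :
      Local [⟨.virt, 0⟩, ⟨c, 0⟩, ⟨.virt, 0⟩] [⟨c, 0⟩]
  | addStrand {L R : List Piece} : Local L R → Local (L.map Piece.succ) (R.map Piece.succ)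

/-- A virtual link diagram: a word from no strands to no strands. -/
structure Diagram where
  /-- the pieces from bottom to top -/
  word : List Piece
  /-- the diagram is closed -/
  closed : Valid word 0 0

/-- A classical diagram: no virtual crossings. -/
def Diagram.Classical (D : Diagram) : Prop := ∀ p ∈ D.word, p.kind ≠ Kind.virt

/-- One move applied inside a diagram. -/
def Diagram.Move (D D' : Diagram) : Prop :=
  ∃ A L R B : List Piece, Local L R ∧ D.word = A ++ L ++ B ∧ D'.word = A ++ R ++ B

/-- `D'` is obtained from `D` by a finite sequence of planar isotopies, generalised Reidemeister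
moves and virtualisations. -/
def Diagram.Related : Diagram → Diagram → Prop := Relation.EqvGen Diagram.Move

/-- Rules for labelling the strands of a diagram by elements of `X`: `rev` is applied when an arc
turns back at a cup or cap, `left` and `right` give the labels above the two classical crossings.
Labels pass unchanged through virtual crossings. -/
structure Rule (X : Type*) where
  /-- the label of the other strand at a cup or cap -/
  rev : X → X
  /-- the labels (left, right) above a crossing `left` in terms of the labels below it -/
  left : X → X → X × X
  /-- the labels (left, right) above a crossing `right` in terms of the labels below it -/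
  right : X → X → X × X

variable {X : Type*}

/-- The labels `a` below and `b` above a piece with no strand on its left are compatible. -/
def Rule.base (ρ : Rule X) : Kind → List X → List X → Prop
  | .cup, a, b => ∃ x, b = x :: ρ.rev x :: a
  | .cap, a, b => ∃ x, a = x :: ρ.rev x :: b
  | .left, a, b => ∃ x y l, a = x :: y :: l ∧ b = (ρ.left x y).1 :: (ρ.left x y).2 :: l
  | .right, a, b => ∃ x y l, a = x :: y :: l ∧ b = (ρ.right x y).1 :: (ρ.right x y).2 :: l
  | .virt, a, b => ∃ x y l, a = x :: y :: l ∧ b = y :: x :: l

/-- The labels `a` below and `b` above a piece of kind `c` with `k` strands on its left are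
compatible: the labels of these `k` strands do not change. -/
def Rule.step (ρ : Rule X) (c : Kind) : ℕ → List X → List X → Prop
  | 0, a, b => ρ.base c a b
  | k + 1, x :: a, y :: b => x = y ∧ ρ.step c k a b
  | _ + 1, _, _ => False

/-- `rs` lists the labels of the strands above every piece of the word `w`, the labels below the
word are `a` and the labels above it are `b`. -/
def Rule.IsColouring (ρ : Rule X) : List Piece → List X → List (List X) → List X → Prop
  | [], a, [], b => a = b
  | p :: w, a, r :: rs, b => ρ.step p.kind p.pos a r ∧ ρ.IsColouring w r rs b
  | _, _, _, _ => False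

/-- The number of colourings of a diagram. -/
noncomputable def Rule.count (ρ : Rule X) (D : Diagram) : ℕ :=
  Nat.card {rs : List (List X) // ρ.IsColouring D.word [] rs []}

/-- Fox colourings with values in an abelian group: the label of a strand passing under a strand
with label `y` changes from `x` to `2y - x`, the label of the over-strand does not change. -/
def foxRule (M : Type*) [AddCommGroup M] : Rule M where
  rev x := x
  left x y := (y, 2 • y - x)
  right x y := (2 • x - y, x)

/-- The number of Fox colourings of `D` with values in `M`. -/
noncomputable def Diagram.foxColourings (D : Diagram) (M : Type*) [AddCommGroup M] : ℕ :=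
  (foxRule M).count D

end Pool.Agent.Lib.MP_31c440_gt.H23
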