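import Pool.Agent.Lib.MP_31c440_gt.H23.Bikei

/-! # The knots `8_9` and `4_1 # 4_1` -/

namespace Pool.Agent.Lib.MP_31c440_gt.H23

/-- A classical diagram of the knot `8_9`: the closure of the braid `σ₀³ σ₁⁻¹ σ₀ σ₁⁻³` on three
strands, where `left` is `σ` and `right` is `σ⁻¹`. -/
def knot89 : Diagram where
  word := [⟨.cup, 0⟩, ⟨.cup, 1⟩, ⟨.cup, 2⟩,
    ⟨.left, 0⟩, ⟨.left, 0⟩, ⟨.left, 0⟩, ⟨.right, 1⟩, ⟨.left, 0⟩, ⟨.right, 1⟩, ⟨.right, 1⟩,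
    ⟨.right, 1⟩,
    ⟨.cap, 2⟩, ⟨.cap, 1⟩, ⟨.cap, 0⟩]
  closed := by
    refine ⟨2, ?_, 4, ?_, 6, ?_, 6, ?_, 6, ?_, 6, ?_, 6, ?_, 6, ?_, 6, ?_, 6, ?_, 6, ?_, 4, ?_,
      2, ?_, 0, ?_, rfl⟩ <;> simp [Piece.Fits, Kind.inn, Kind.out]

/-- A classical diagram of the knot `4_1 # 4_1`: the composition of two `1`-tangles, each obtained
from the braid `σ₀ σ₁⁻¹ σ₀ σ₁⁻¹` on three strands by closing its last two strands, closed up. -/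
def knot41sum : Diagram where
  word := [⟨.cup, 0⟩,
    ⟨.cup, 1⟩, ⟨.cup, 2⟩, ⟨.left, 0⟩, ⟨.right, 1⟩, ⟨.left, 0⟩, ⟨.right, 1⟩, ⟨.cap, 2⟩, ⟨.cap, 1⟩,
    ⟨.cup, 1⟩, ⟨.cup, 2⟩, ⟨.left, 0⟩, ⟨.right, 1⟩, ⟨.left, 0⟩, ⟨.right, 1⟩, ⟨.cap, 2⟩, ⟨.cap, 1⟩,
    ⟨.cap, 0⟩]
  closed := by
    refine ⟨2, ?_, 4, ?_, 6, ?_, 6, ?_, 6, ?_, 6, ?_, 6, ?_, 4, ?_, 2, ?_, 4, ?_, 6, ?_, 6, ?_,
      6, ?_, 6, ?_, 6, ?_, 4, ?_, 2, ?_, 0, ?_, rfl⟩ <;> simp [Piece.Fits, Kind.inn, Kind.out]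

theorem knot89_classical : knot89.Classical := by
  intro p hp
  simp only [knot89, List.mem_cons, List.not_mem_nil, or_false] at hp
  rcases hp with rfl | rfl | rfl | rfl | rfl | rfl | rfl | rfl | rfl | rfl | rfl | rfl | rfl | rfl <;>
    exact Kind.noConfusion

theorem knot41sum_classical : knot41sum.Classical := by
  intro p hp
  simp only [knot41sum, List.mem_cons, List.not_mem_nil, or_false] at hp
  rcases hp with rfl | rfl | rfl | rfl | rfl | rfl | rfl | rfl | rfl | rfl | rfl | rfl | rfl | rfl |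
    rfl | rfl | rfl | rfl <;> exact Kind.noConfusion

theorem knot89_five : knot89.foxColourings (ZMod 5) = 25 := by
  rw [Diagram.foxColourings, Rule.count_eq]
  decide +kernel

theorem knot41sum_five : knot41sum.foxColourings (ZMod 5) = 125 := by
  rw [Diagram.foxColourings, Rule.count_eq]
  decide +kernel

end Pool.Agent.Lib.MP_31c440_gt.H23
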