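import Pool.Agent.Lib.MP_31c440_gt.H23.Ops

/-! # Rules whose number of colourings is invariant under all moves -/

namespace Pool.Agent.Lib.MP_31c440_gt.H23

/-- The label pair above a crossing. -/
def Rule.cross {X : Type*} (ρ : Rule X) : Kind → X → X → X × X
  | .left, x, y => ρ.left x y
  | .right, x, y => ρ.right x y
  | _, x, y => (y, x)

/-- The conditions on a rule which make the number of colourings invariant. -/
structure Rule.Symmetric {X : Type*} (ρ : Rule X) : Prop where
  rev_rev : ∀ x, ρ.rev (ρ.rev x) = x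
  two : ∀ c : Kind, ∀ x y, ρ.cross c.flip (ρ.cross c x y).1 (ρ.cross c x y).2 = (x, y)
  kink : ∀ c : Kind, ∀ x, (ρ.cross c x (ρ.rev x)).2 = ρ.rev (ρ.cross c x (ρ.rev x)).1
  three : ∀ c : Kind, ∀ x y z,
    ((ρ.cross c (ρ.cross c x y).1 (ρ.cross c (ρ.cross c x y).2 z).1).1,
     (ρ.cross c (ρ.cross c x y).1 (ρ.cross c (ρ.cross c x y).2 z).1).2,
     (ρ.cross c (ρ.cross c x y).2 z).2) =
    ((ρ.cross c x (ρ.cross c y z).1).1,
     (ρ.cross c (ρ.cross c x (ρ.cross c y z).1).2 (ρ.cross c y z).2).1,
     (ρ.cross c (ρ.cross c x (ρ.cross c y z).1).2 (ρ.cross c y z).2).2)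
  turn : ∀ c : Kind, ∀ a b, ρ.cross c b (ρ.rev (ρ.cross c.flip a b).2) =
    (ρ.rev a, (ρ.cross c.flip a b).1)
  virtualisation : ∀ c : Kind, ∀ x y, ρ.cross c y x = (ρ.cross c x y).swap
  inj : ∀ c : Kind, ∀ x y z, (ρ.cross c x y).1 = (ρ.cross c x z).1 → y = z

section
variable {X : Type*} [Fintype X] [DecidableEq X] (ρ : Rule X)

set_option linter.unusedSectionVars false

theorem Kind.flip_flip (c : Kind) : c.flip.flip = c := by cases c <;> rfl

theorem Kind.IsCrossing.flip {c : Kind} (h : c.IsCrossing) : c.flip.IsCrossing := by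
  cases c <;> simp_all [Kind.IsCrossing, Kind.flip]

theorem Kind.inn_crossing {c : Kind} (h : c.IsCrossing) : c.inn = 2 := by
  cases c <;> simp_all [Kind.IsCrossing, Kind.inn]

theorem Kind.out_crossing {c : Kind} (h : c.IsCrossing) : c.out = 2 := by
  cases c <;> simp_all [Kind.IsCrossing, Kind.out]

theorem Rule.op0_cross {c : Kind} (h : c.IsCrossing) (f : List X → ℕ) (x y : X) (l : List X) :
    ρ.op0 c f (x :: y :: l) = f ((ρ.cross c x y).1 :: (ρ.cross c x y).2 :: l) := by
  cases c <;> first | rfl | exact h.elim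

theorem Rule.op0_virt (f : List X → ℕ) (x y : X) (l : List X) :
    ρ.op0 .virt f (x :: y :: l) = f (y :: x :: l) := rfl

theorem Rule.op0_left (f : List X → ℕ) (x y : X) (l : List X) :
    ρ.op0 .left f (x :: y :: l) = f ((ρ.left x y).1 :: (ρ.left x y).2 :: l) := rfl

theorem Rule.op0_right (f : List X → ℕ) (x y : X) (l : List X) :
    ρ.op0 .right f (x :: y :: l) = f ((ρ.right x y).1 :: (ρ.right x y).2 :: l) := rfl

theorem Rule.op0_cap (f : List X → ℕ) (x y : X) (l : List X) :
    ρ.op0 .cap f (x :: y :: l) = if y = ρ.rev x then f l else 0 := rfl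

theorem Rule.op0_cup (f : List X → ℕ) (l : List X) :
    ρ.op0 .cup f l = ∑ x, f (x :: ρ.rev x :: l) := rfl

theorem Rule.opk_zero_fun (c : Kind) (k : ℕ) (a : List X) : ρ.opk c k (fun _ => 0) a = 0 := by
  obtain ⟨S, -, hf⟩ := ρ.opk_eq_sum c k a
  rw [hf]; simp

theorem Rule.opk_sum {ι : Type*} [Fintype ι] (c : Kind) (k : ℕ) (g : ι → List X → ℕ)
    (a : List X) : ρ.opk c k (fun b => ∑ i, g i b) a = ∑ i, ρ.opk c k (g i) a := by
  obtain ⟨S, -, hf⟩ := ρ.opk_eq_sum c k a
  simp_rw [hf]
  exact Finset.sum_comm

theorem Rule.opk_two_add (c : Kind) (d : ℕ) (f : List X → ℕ) (x y : X) (l : List X) :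
    ρ.opk c (2 + d) f (x :: y :: l) = ρ.opk c d (fun b => f (x :: y :: b)) l := by
  rw [Nat.add_comm]
  rfl

theorem Rule.op_succ (w : List Piece) : ∀ (f : List X → ℕ) (x : X) (a : List X),
    ρ.op (w.map Piece.succ) f (x :: a) = ρ.op w (fun b => f (x :: b)) a := by
  induction w with
  | nil => intro f x a; rfl
  | cons p w ih =>
    intro f x a
    simp only [List.map_cons, Rule.op, Piece.succ, Rule.opk]
    congr 1
    funext b
    exact ih f x b

theorem valid_succ (w : List Piece) : ∀ {m n : ℕ}, Valid (w.map Piece.succ) (m + 1) n →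
    ∃ n₀, Valid w m n₀ := by
  induction w with
  | nil => intro m n _; exact ⟨m, rfl⟩
  | cons p w ih =>
    rintro m n ⟨l, ⟨h1, h2⟩, h3⟩
    simp only [Piece.succ] at h1 h2
    obtain ⟨l₀, rfl⟩ : ∃ l₀, l = l₀ + 1 := ⟨l - 1, by omega⟩
    obtain ⟨n₀, hn⟩ := ih h3
    exact ⟨n₀, l₀, ⟨by omega, by omega⟩, hn⟩

theorem valid_append (u v : List Piece) : ∀ {m n : ℕ}, Valid (u ++ v) m n →
    ∃ l, Valid u m l ∧ Valid v l n := by
  induction u with
  | nil => intro m n h; exact ⟨m, rfl, h⟩
  | cons p u ih =>
    rintro m n ⟨l, h1, h2⟩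
    obtain ⟨l', h3, h4⟩ := ih h2
    exact ⟨l', ⟨l, h1, h3⟩, h4⟩

theorem valid_unique (u : List Piece) : ∀ {m l l' : ℕ}, Valid u m l → Valid u m l' → l = l' := by
  induction u with
  | nil => intro m l l' h h'; exact h.symm.trans h'
  | cons p u ih =>
    rintro m l l' ⟨k, h1, h2⟩ ⟨k', h1', h2'⟩
    have : k = k' := by
      have := h1.2; have := h1'.2; omega
    subst this
    exact ih h2 h2'

/-- A piece maps labellings of `m` strands to labellings of `n` strands. -/
theorem Rule.step_length {c : Kind} : ∀ {k : ℕ} {a b : List X}, ρ.step c k a b →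
    b.length + c.inn = a.length + c.out
  | 0, a, b, h => by
    cases c with
    | cup => obtain ⟨x, rfl⟩ := h; simp [Kind.inn, Kind.out]
    | cap => obtain ⟨x, rfl⟩ := h; simp [Kind.inn, Kind.out]
    | left => obtain ⟨x, y, l, rfl, rfl⟩ := h; simp [Kind.inn, Kind.out]
    | right => obtain ⟨x, y, l, rfl, rfl⟩ := h; simp [Kind.inn, Kind.out]
    | virt => obtain ⟨x, y, l, rfl, rfl⟩ := h; simp [Kind.inn, Kind.out]
  | k + 1, [], b, h => by cases b <;> exact h.elim
  | k + 1, x :: a, [], h => h.elim
  | k + 1, x :: a, y :: b, h => by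
    have := Rule.step_length h.2
    simp only [List.length_cons]
    omega

/-- The operator of a word only sees the values on rows of the right length. -/
theorem Rule.op_congr (w : List Piece) : ∀ {m n : ℕ}, Valid w m n → ∀ {g g' : List X → ℕ},
    (∀ b, b.length = n → g b = g' b) → ∀ a, a.length = m → ρ.op w g a = ρ.op w g' a := by
  induction w with
  | nil => rintro m n rfl g g' h a ha; exact h a ha
  | cons p w ih =>
    rintro m n ⟨l, h1, h2⟩ g g' h a ha
    simp only [Rule.op]
    obtain ⟨S, hS, hf⟩ := ρ.opk_eq_sum p.kind p.pos a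
    rw [hf, hf]
    refine Finset.sum_congr rfl fun b hb => ih h2 h b ?_
    have := ρ.step_length ((hS b).1 hb)
    have := h1.2
    omega

variable {ρ}

theorem Rule.Symmetric.cross_swap_bij (h : ρ.Symmetric) (c : Kind) (x y : X) :
    ρ.cross c (ρ.cross c.flip x y).1 (ρ.cross c.flip x y).2 = (x, y) := by
  have := h.two c.flip x y
  rwa [Kind.flip_flip] at this

/-- At a cap the crossing can be turned around. -/
theorem Rule.Symmetric.turn_iff (h : ρ.Symmetric) (c : Kind) (a b d : X) :
    (ρ.cross c b d).1 = ρ.rev a ↔ d = ρ.rev (ρ.cross c.flip a b).2 := by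
  constructor
  · intro h1
    refine h.inj c b _ _ ?_
    rw [h1, h.turn]
  · rintro rfl
    rw [h.turn]

theorem Rule.Symmetric.kink_iff (h : ρ.Symmetric) (c : Kind) (x y : X) :
    (ρ.cross c x y).2 = ρ.rev (ρ.cross c x y).1 ↔ y = ρ.rev x := by
  constructor
  · intro h1
    have h2 := h.kink c.flip (ρ.cross c x y).1
    rw [← h1, h.two] at h2
    exact h2
  · rintro rfl
    exact h.kink c x

/-- Every local move preserves the operators. -/
theorem Rule.Symmetric.op_local (h : ρ.Symmetric) {L R : List Piece} (hLR : Local L R) :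
    ∀ {m n n' : ℕ}, Valid L m n → Valid R m n' → ∀ (f : List X → ℕ) (a : List X),
      a.length = m → ρ.op L f a = ρ.op R f a := by
  induction hLR with
  | far a b d =>
    rintro m n n' ⟨l, ⟨h1, h2⟩, l', ⟨h3, h4⟩, -⟩ - f r hr
    simp only [Rule.op, Rule.opk]
    cases a with
    | cup =>
      simp only [Kind.out, Kind.inn, Nat.zero_add, Rule.op0_cup]
      rw [Rule.opk_sum]
      refine Finset.sum_congr rfl fun x _ => ?_
      exact ρ.opk_two_add b d f _ _ _
    | cap =>
      simp only [Kind.out, Kind.inn] at h1 ⊢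
      match r, hr with
      | x :: y :: r, hr =>
        rw [Rule.opk_two_add, Nat.zero_add, Rule.op0_cap]
        simp only [Rule.op0_cap]
        split_ifs with hy
        · rfl
        · rw [Rule.opk_zero_fun]
      | [x], hr => simp at hr; omega
      | [], hr => simp at hr; omega
    | left =>
      simp only [Kind.out, Kind.inn] at h1 ⊢
      match r, hr with
      | x :: y :: r, hr =>
        rw [Rule.opk_two_add]
        simp only [Rule.op0_left, Rule.op0_right, Rule.op0_virt]
        rw [Rule.opk_two_add]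
      | [x], hr => simp at hr; omega
      | [], hr => simp at hr; omega
    | right =>
      simp only [Kind.out, Kind.inn] at h1 ⊢
      match r, hr with
      | x :: y :: r, hr =>
        rw [Rule.opk_two_add]
        simp only [Rule.op0_left, Rule.op0_right, Rule.op0_virt]
        rw [Rule.opk_two_add]
      | [x], hr => simp at hr; omega
      | [], hr => simp at hr; omega
    | virt =>
      simp only [Kind.out, Kind.inn] at h1 ⊢
      match r, hr with
      | x :: y :: r, hr =>
        rw [Rule.opk_two_add]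
        simp only [Rule.op0_left, Rule.op0_right, Rule.op0_virt]
        rw [Rule.opk_two_add]
      | [x], hr => simp at hr; omega
      | [], hr => simp at hr; omega
  | zig =>
    rintro m n n' ⟨l, ⟨h1, h2⟩, -⟩ - f r hr
    simp only [Kind.inn] at h1
    match r, hr with
    | x :: r, hr =>
      simp only [Rule.op, Rule.opk, Rule.op0_cup, Rule.op0_cap]
      rw [Finset.sum_ite_eq']
      simp [h.rev_rev]
    | [], hr => simp at hr; omega
  | zag =>
    rintro m n n' ⟨l, ⟨h1, h2⟩, l', ⟨h3, h4⟩, -⟩ - f r hr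
    simp only [Kind.inn, Kind.out] at h1 h2 h3 h4
    match r, hr with
    | x :: r, hr =>
      simp only [Rule.op, Rule.opk, Rule.op0_cup, Rule.op0_cap, h.rev_rev]
      rw [Finset.sum_ite_eq]
      simp
    | [], hr => simp at hr; omega
  | turnCap c hc =>
    rintro m n n' ⟨l, ⟨h1, h2⟩, -⟩ - f r hr
    replace h1 : 1 + 2 ≤ m := by simpa [Kind.inn_crossing hc] using h1
    match r, hr with
    | a :: b :: d :: r, hr =>
      simp only [Rule.op, Rule.opk, ρ.op0_cross hc, ρ.op0_cross hc.flip, Rule.op0_cap]
      by_cases hd : (ρ.cross c b d).1 = ρ.rev a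
      · rw [if_pos hd, if_pos ((h.turn_iff c a b d).1 hd)]
        have := (h.turn_iff c a b d).1 hd
        subst this
        rw [h.turn]
      · rw [if_neg hd, if_neg (fun h' => hd ((h.turn_iff c a b d).2 h'))]
    | [a, b], hr => simp at hr; omega
    | [a], hr => simp at hr; omega
    | [], hr => simp at hr; omega
  | turnCup c hc =>
    rintro m n n' ⟨l, ⟨h1, h2⟩, l', ⟨h3, h4⟩, -⟩ - f r hr
    rw [Kind.inn_crossing hc] at h3
    simp only [Kind.inn, Kind.out] at h1 h2 h3 h4
    match r, hr with
    | b :: r, hr =>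
      simp only [Rule.op, Rule.opk, ρ.op0_cross hc, ρ.op0_cross hc.flip, Rule.op0_cup]
      have key : ∀ x : X, ρ.cross c.flip b (ρ.rev (ρ.cross c (ρ.rev x) b).2) =
          (x, (ρ.cross c (ρ.rev x) b).1) := by
        intro x
        have := h.turn c.flip (ρ.rev x) b
        rw [Kind.flip_flip, h.rev_rev] at this
        exact this
      have hinj : Function.Injective (fun x : X => ρ.rev (ρ.cross c (ρ.rev x) b).2) := by
        intro x x' hx
        have h1 := key x
        have h2 := key x'
        simp only at hx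
        rw [hx, h2] at h1
        exact (Prod.ext_iff.1 h1).1.symm
      have hbij := Finite.injective_iff_bijective.1 hinj
      refine (Finset.sum_congr rfl fun x _ => ?_).trans (Function.Bijective.sum_comp hbij
        (fun y => f ((ρ.cross c.flip b y).1 :: (ρ.cross c.flip b y).2 :: ρ.rev y :: r)))
      simp only [key, h.rev_rev]
    | [], hr => simp at hr; omega
  | kinkCap c hc =>
    rintro m n n' ⟨l, ⟨h1, h2⟩, -⟩ - f r hr
    rw [Kind.inn_crossing hc] at h1
    match r, hr with
    | x :: y :: r, hr =>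
      simp only [Rule.op, Rule.opk, ρ.op0_cross hc, Rule.op0_cap]
      simp only [h.kink_iff]
    | [a], hr => simp at hr; omega
    | [], hr => simp at hr; omega
  | kinkCup c hc =>
    rintro m n n' - - f r hr
    simp only [Rule.op, Rule.opk, ρ.op0_cross hc, Rule.op0_cup]
    have hinj : Function.Injective (fun x : X => (ρ.cross c x (ρ.rev x)).1) := by
      intro x x' hx
      simp only at hx
      have h1 := h.two c x (ρ.rev x)
      have h2 := h.two c x' (ρ.rev x')
      rw [h.kink, hx, ← h.kink, h2] at h1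
      exact (Prod.ext_iff.1 h1).1.symm
    have hbij := Finite.injective_iff_bijective.1 hinj
    refine (Finset.sum_congr rfl fun x _ => ?_).trans (Function.Bijective.sum_comp hbij
        (fun y => f (y :: ρ.rev y :: r)))
    rw [h.kink]
  | two c hc =>
    rintro m n n' ⟨l, ⟨h1, h2⟩, -⟩ - f r hr
    rw [Kind.inn_crossing hc] at h1
    match r, hr with
    | x :: y :: r, hr =>
      simp only [Rule.op, Rule.opk, ρ.op0_cross hc, ρ.op0_cross hc.flip, h.two]
    | [a], hr => simp at hr; omega
    | [], hr => simp at hr; omega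
  | three c hc =>
    rintro m n n' ⟨l, ⟨h1, h2⟩, l', ⟨h3, h4⟩, -⟩ - f r hr
    replace h3 : 1 + 2 ≤ l := by simpa [Kind.inn_crossing hc] using h3
    replace h2 : l + 2 = m + 2 := by
      simpa only [Kind.inn_crossing hc, Kind.out_crossing hc] using h2
    match r, hr with
    | x :: y :: z :: r, hr =>
      simp only [Rule.op, Rule.opk, ρ.op0_cross hc]
      have := h.three c x y z
      simp only [Prod.mk.injEq] at this
      rw [this.1, this.2.1, this.2.2]
    | [a, b], hr => simp at hr; omega
    | [a], hr => simp at hr; omega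
    | [], hr => simp at hr; omega
  | mixed c hc =>
    rintro m n n' ⟨l, ⟨h1, h2⟩, l', ⟨h3, h4⟩, -⟩ - f r hr
    simp only [Kind.inn, Kind.out] at h1 h2 h3
    match r, hr with
    | x :: y :: z :: r, hr =>
      simp only [Rule.op, Rule.opk, ρ.op0_cross hc, Rule.op0_virt]
    | [a, b], hr => simp at hr; omega
    | [a], hr => simp at hr; omega
    | [], hr => simp at hr; omega
  | virtualisation c hc =>
    rintro m n n' ⟨l, ⟨h1, h2⟩, -⟩ - f r hr
    simp only [Kind.inn, Kind.out] at h1
    match r, hr with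
    | x :: y :: r, hr =>
      simp only [Rule.op, Rule.opk, ρ.op0_cross hc, Rule.op0_virt]
      rw [h.virtualisation c x y]
      rfl
    | [a], hr => simp at hr; omega
    | [], hr => simp at hr; omega
  | @addStrand L R hLR ih =>
    intro m n n' hL hR f r hr
    match r, hr with
    | [], hr =>
      simp only [List.length_nil] at hr
      subst hr
      have hnil : ∀ (w : List Piece) {n : ℕ}, Valid (w.map Piece.succ) 0 n → w = [] := by
        intro w n hw
        cases w with
        | nil => rfl
        | cons p w =>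
          obtain ⟨l, ⟨h1, -⟩, -⟩ := hw
          simp only [Piece.succ] at h1
          omega
      rw [hnil L hL, hnil R hR]
    | x :: r, hr =>
      simp only [List.length_cons] at hr
      subst hr
      obtain ⟨k, hk⟩ := valid_succ L hL
      obtain ⟨k', hk'⟩ := valid_succ R hR
      rw [Rule.op_succ, Rule.op_succ]
      exact ih hk hk' _ r rfl

/-- One move does not change the number of colourings. -/
theorem Rule.Symmetric.count_move (h : ρ.Symmetric) {D D' : Diagram} (hm : D.Move D') :
    ρ.count D = ρ.count D' := by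
  obtain ⟨A, L, R, B, hLR, h1, h2⟩ := hm
  have hD := D.closed
  have hD' := D'.closed
  rw [h1, List.append_assoc] at hD
  rw [h2, List.append_assoc] at hD'
  obtain ⟨m, hA, hLB⟩ := valid_append A _ hD
  obtain ⟨m', hA', hRB⟩ := valid_append A _ hD'
  obtain rfl := valid_unique A hA hA'
  obtain ⟨n, hL, -⟩ := valid_append L _ hLB
  obtain ⟨n', hR, -⟩ := valid_append R _ hRB
  rw [ρ.count_eq, ρ.count_eq, h1, h2, List.append_assoc, List.append_assoc, ρ.op_append A,
    ρ.op_append A, ρ.op_append L, ρ.op_append R]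
  exact ρ.op_congr A hA (fun b hb => h.op_local hLR hL hR _ b hb) [] rfl

theorem Rule.Symmetric.count_related (h : ρ.Symmetric) {D D' : Diagram} (hm : D.Related D') :
    ρ.count D = ρ.count D' := by
  induction hm with
  | rel _ _ h' => exact h.count_move h'
  | refl _ => rfl
  | symm _ _ _ ih => exact ih.symm
  | trans _ _ _ _ _ ih1 ih2 => exact ih1.trans ih2

end

end Pool.Agent.Lib.MP_31c440_gt.H23
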