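import Pool.Agent.Lib.MP_31c440_gt.H23.Defs

/-! # Counting colourings by operators -/

namespace Pool.Agent.Lib.MP_31c440_gt.H23

variable {X : Type*} [Fintype X] [DecidableEq X]

/-- Operator of a piece with no strand on its left. -/
def Rule.op0 (ρ : Rule X) : Kind → (List X → ℕ) → List X → ℕ
  | .cup, f, a => ∑ x, f (x :: ρ.rev x :: a)
  | .cap, f, x :: y :: l => if y = ρ.rev x then f l else 0
  | .left, f, x :: y :: l => f ((ρ.left x y).1 :: (ρ.left x y).2 :: l)
  | .right, f, x :: y :: l => f ((ρ.right x y).1 :: (ρ.right x y).2 :: l)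
  | .virt, f, x :: y :: l => f (y :: x :: l)
  | _, _, _ => 0

/-- Operator of a piece. -/
def Rule.opk (ρ : Rule X) (c : Kind) : ℕ → (List X → ℕ) → List X → ℕ
  | 0, f, a => ρ.op0 c f a
  | k + 1, f, x :: a => ρ.opk c k (fun b => f (x :: b)) a
  | _ + 1, _, [] => 0

/-- Operator of a word. -/
def Rule.op (ρ : Rule X) : List Piece → (List X → ℕ) → List X → ℕ
  | [], f, a => f a
  | p :: w, f, a => ρ.opk p.kind p.pos (ρ.op w f) a

theorem Rule.op_append (ρ : Rule X) (u v : List Piece) (f : List X → ℕ) :
    ρ.op (u ++ v) f = ρ.op u (ρ.op v f) := by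
  induction u with
  | nil => rfl
  | cons p u ih =>
    funext a
    simp only [List.cons_append, Rule.op, ih]

/-- The set of possible labels above a piece. -/
theorem Rule.opk_eq_sum (ρ : Rule X) (c : Kind) : ∀ (k : ℕ) (a : List X),
    ∃ S : Finset (List X), (∀ b, b ∈ S ↔ ρ.step c k a b) ∧
      ∀ f : List X → ℕ, ρ.opk c k f a = ∑ b ∈ S, f b
  | 0, a => by
    classical
    cases c with
    | cup =>
      refine ⟨Finset.univ.image (fun x => x :: ρ.rev x :: a), ?_, ?_⟩
      · intro b
        simp only [Finset.mem_image, Finset.mem_univ, true_and, Rule.step, Rule.base]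
        constructor
        · rintro ⟨x, h⟩; exact ⟨x, h.symm⟩
        · rintro ⟨x, h⟩; exact ⟨x, h.symm⟩
      · intro f
        simp only [Rule.opk, Rule.op0]
        rw [Finset.sum_image]
        intro x _ y _ h
        exact (List.cons.inj h).1
    | cap =>
      match a with
      | [] => exact ⟨∅, by intro b; simp [Rule.step, Rule.base], by intro f; simp [Rule.opk, Rule.op0]⟩
      | [x] => exact ⟨∅, by intro b; simp [Rule.step, Rule.base], by intro f; simp [Rule.opk, Rule.op0]⟩
      | x :: y :: l =>
        by_cases h : y = ρ.rev x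
        · refine ⟨{l}, ?_, ?_⟩
          · intro b
            simp only [Finset.mem_singleton, Rule.step, Rule.base]
            constructor
            · rintro rfl; exact ⟨x, by rw [h]⟩
            · rintro ⟨x', hx⟩
              simp only [List.cons.injEq] at hx
              exact hx.2.2.symm
          · intro f
            simp [Rule.opk, Rule.op0, h]
        · refine ⟨∅, ?_, ?_⟩
          · intro b
            simp only [Finset.notMem_empty, Rule.step, Rule.base, false_iff]
            rintro ⟨x', hx⟩
            simp only [List.cons.injEq] at hx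
            exact h (by rw [hx.2.1, hx.1])
          · intro f
            simp [Rule.opk, Rule.op0, h]
    | left =>
      match a with
      | [] => exact ⟨∅, by intro b; simp [Rule.step, Rule.base], by intro f; simp [Rule.opk, Rule.op0]⟩
      | [x] => exact ⟨∅, by intro b; simp [Rule.step, Rule.base], by intro f; simp [Rule.opk, Rule.op0]⟩
      | x :: y :: l =>
        refine ⟨{(ρ.left x y).1 :: (ρ.left x y).2 :: l}, ?_, ?_⟩
        · intro b
          simp only [Finset.mem_singleton, Rule.step, Rule.base]
          constructor
          · rintro rfl; exact ⟨x, y, l, rfl, rfl⟩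
          · rintro ⟨x', y', l', h1, h2⟩
            simp only [List.cons.injEq] at h1
            obtain ⟨rfl, rfl, rfl⟩ := h1
            exact h2
        · intro f
          simp [Rule.opk, Rule.op0]
    | right =>
      match a with
      | [] => exact ⟨∅, by intro b; simp [Rule.step, Rule.base], by intro f; simp [Rule.opk, Rule.op0]⟩
      | [x] => exact ⟨∅, by intro b; simp [Rule.step, Rule.base], by intro f; simp [Rule.opk, Rule.op0]⟩
      | x :: y :: l =>
        refine ⟨{(ρ.right x y).1 :: (ρ.right x y).2 :: l}, ?_, ?_⟩
        · intro b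
          simp only [Finset.mem_singleton, Rule.step, Rule.base]
          constructor
          · rintro rfl; exact ⟨x, y, l, rfl, rfl⟩
          · rintro ⟨x', y', l', h1, h2⟩
            simp only [List.cons.injEq] at h1
            obtain ⟨rfl, rfl, rfl⟩ := h1
            exact h2
        · intro f
          simp [Rule.opk, Rule.op0]
    | virt =>
      match a with
      | [] => exact ⟨∅, by intro b; simp [Rule.step, Rule.base], by intro f; simp [Rule.opk, Rule.op0]⟩
      | [x] => exact ⟨∅, by intro b; simp [Rule.step, Rule.base], by intro f; simp [Rule.opk, Rule.op0]⟩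
      | x :: y :: l =>
        refine ⟨{y :: x :: l}, ?_, ?_⟩
        · intro b
          simp only [Finset.mem_singleton, Rule.step, Rule.base]
          constructor
          · rintro rfl; exact ⟨x, y, l, rfl, rfl⟩
          · rintro ⟨x', y', l', h1, h2⟩
            simp only [List.cons.injEq] at h1
            obtain ⟨rfl, rfl, rfl⟩ := h1
            exact h2
        · intro f
          simp [Rule.opk, Rule.op0]
  | k + 1, [] => ⟨∅, by intro b; cases b <;> simp [Rule.step], by intro f; simp [Rule.opk]⟩
  | k + 1, x :: a => by
    obtain ⟨S, hS, hf⟩ := ρ.opk_eq_sum c k a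
    refine ⟨S.map ⟨fun b => x :: b, fun b b' h => (List.cons.inj h).2⟩, ?_, ?_⟩
    · intro b
      simp only [Finset.mem_map, Function.Embedding.coeFn_mk]
      constructor
      · rintro ⟨b', hb', rfl⟩
        exact ⟨rfl, (hS b').1 hb'⟩
      · intro h
        cases b with
        | nil => exact h.elim
        | cons y b =>
          obtain ⟨rfl, h2⟩ := h
          exact ⟨b, (hS b).2 h2, rfl⟩
    · intro f
      rw [Rule.opk, hf, Finset.sum_map]
      rfl

/-- The set of colourings of a word with given boundary labels is finite and counted by the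
operator of the word. -/
theorem Rule.card_colourings (ρ : Rule X) (w : List Piece) : ∀ (a b : List X),
    Finite {rs : List (List X) // ρ.IsColouring w a rs b} ∧
    Nat.card {rs : List (List X) // ρ.IsColouring w a rs b} =
      ρ.op w (fun c => if c = b then 1 else 0) a := by
  classical
  induction w with
  | nil =>
    intro a b
    simp only [Rule.op]
    split_ifs with h
    · have : {rs : List (List X) // ρ.IsColouring [] a rs b} ≃ Unit := by
        refine ⟨fun _ => (), fun _ => ⟨[], h⟩, ?_, fun _ => rfl⟩
        rintro ⟨rs, hrs⟩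
        cases rs with
        | nil => rfl
        | cons r rs => exact hrs.elim
      exact ⟨Finite.of_equiv _ this.symm, by rw [Nat.card_congr this]; simp⟩
    · have : IsEmpty {rs : List (List X) // ρ.IsColouring [] a rs b} := by
        refine ⟨?_⟩
        rintro ⟨rs, hrs⟩
        cases rs with
        | nil => exact h hrs
        | cons r rs => exact hrs.elim
      exact ⟨inferInstance, by simp⟩
  | cons p w ih =>
    intro a b
    obtain ⟨S, hS, hf⟩ := ρ.opk_eq_sum p.kind p.pos a
    have e : {rs : List (List X) // ρ.IsColouring (p :: w) a rs b} ≃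
        Σ r : S, {rs : List (List X) // ρ.IsColouring w r rs b} := by
      refine ⟨fun rs => ?_, fun t => ⟨t.1.1 :: t.2.1, (hS _).1 t.1.2, t.2.2⟩, ?_, ?_⟩
      · match rs with
        | ⟨[], h⟩ => exact h.elim
        | ⟨r :: rs, h⟩ => exact ⟨⟨r, (hS r).2 h.1⟩, ⟨rs, h.2⟩⟩
      · rintro ⟨rs, h⟩
        cases rs with
        | nil => exact h.elim
        | cons r rs => rfl
      · rintro ⟨⟨r, hr⟩, ⟨rs, h⟩⟩
        rfl
    have hfin : ∀ r : S, Finite {rs : List (List X) // ρ.IsColouring w r rs b} :=
      fun r => (ih r b).1
    refine ⟨Finite.of_equiv _ e.symm, ?_⟩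
    rw [Nat.card_congr e, Nat.card_sigma, Rule.op, hf]
    rw [← Finset.sum_coe_sort S]
    exact Finset.sum_congr rfl fun r _ => (ih r b).2

theorem Rule.count_eq (ρ : Rule X) (D : Diagram) :
    ρ.count D = ρ.op D.word (fun c => if c = [] then 1 else 0) [] :=
  (ρ.card_colourings D.word [] []).2

end Pool.Agent.Lib.MP_31c440_gt.H23
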